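import Pool.Agent.Helper74.UB.Goals5

/-!
# UB-BADX: few columns meet a small set
-/

namespace Pool.Agent.Helper59.UB

open Finset Equiv Helper28.VF
open Pool.Agent.Helper74.UB
open scoped Classical

theorem badx : StmtBadX := by
  intro K h V F _ L f _ H I w₁ w₂ h1 h2 R
  have frow : ∀ (r : ℤ) (x : ZMod (3 * 2 ^ K)), 0 ≤ r → r ≤ h → L.row (f r x) = r := by
    intro r x h0 h1
    obtain ⟨n, rfl⟩ := Int.eq_ofNat_of_zero_le h0
    exact H.flat.row n x (by omega) (by omega)
  have finj : ∀ (r : ℤ) (x x' : ZMod (3 * 2 ^ K)), 0 ≤ r → r ≤ h → f r x = f r x' → x = x' := by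
    intro r x x' h0 h1 he
    obtain ⟨n, rfl⟩ := Int.eq_ofNat_of_zero_le h0
    exact H.flat.inj n x x' (by omega) (by omega) he
  have hr1 : ∀ x, L.row (w₁ x) = h + 1 := by
    intro x
    rw [H.ax.up_row _ _ (h1 x), frow _ _ (by positivity) le_rfl]
  have hr2 : ∀ x, L.row (w₂ x) = -1 := by
    intro x
    have := H.ax.up_row _ _ (h2 x)
    rw [frow _ _ le_rfl (by positivity)] at this
    omega
  have hmem : ∀ (v : V) x, (Sum.inl v : VC V I) ∈ colX I h f (w₁ x) (w₂ x) x ↔
      v = w₁ x ∨ v = w₂ x ∨ ∃ r : ℤ, (0 ≤ r ∧ r ≤ h) ∧ f r x = v := by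
    intro v x
    unfold colX
    rw [mem_insert, mem_insert, mem_image]
    simp only [Sum.inl.injEq, mem_Icc]
  have key : ∀ a : VC V I,
      (univ.filter fun x => a ∈ colX I h f (w₁ x) (w₂ x) x).card ≤ 3 := by
    intro a
    rcases a with v | q
    · by_cases c1 : 0 ≤ L.row v ∧ L.row v ≤ h
      · refine le_trans (card_le_one.2 ?_) (by norm_num)
        intro x hx x' hx'
        rw [mem_filter, hmem] at hx hx'
        have hf : ∀ x, (v = w₁ x ∨ v = w₂ x ∨ ∃ r : ℤ, (0 ≤ r ∧ r ≤ h) ∧ f r x = v) →
            f (L.row v) x = v := by
          intro x hx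
          rcases hx with e | e | ⟨r, hr, e⟩
          · have := hr1 x; rw [← e] at this; omega
          · have := hr2 x; rw [← e] at this; omega
          · have h3 := frow r x hr.1 hr.2
            rw [e] at h3
            rw [h3]; exact e
        exact finj _ _ _ c1.1 c1.2 ((hf x hx.2).trans (hf x' hx'.2).symm)
      · by_cases c2 : L.row v = h + 1
        · refine le_trans ?_ (H.dn3 v)
          refine card_le_card_of_injOn (fun x => f h x) ?_ ?_
          · intro x hx
            rw [mem_coe, mem_filter, hmem] at hx
            rw [mem_coe, mem_filter]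
            refine ⟨mem_univ _, ?_⟩
            rcases hx.2 with e | e | ⟨r, hr, e⟩
            · rw [e]; exact h1 x
            · have := hr2 x; rw [← e] at this; omega
            · have h3 := frow r x hr.1 hr.2
              rw [e] at h3; omega
          · intro x _ x' _ he
            exact finj _ _ _ (by positivity) le_rfl he
        · by_cases c3 : L.row v = -1
          · refine le_trans ?_ (H.up3 v)
            refine card_le_card_of_injOn (fun x => f 0 x) ?_ ?_
            · intro x hx
              rw [mem_coe, mem_filter, hmem] at hx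
              rw [mem_coe, mem_filter]
              refine ⟨mem_univ _, ?_⟩
              rcases hx.2 with e | e | ⟨r, hr, e⟩
              · have := hr1 x; rw [← e] at this; omega
              · rw [e]; exact h2 x
              · have h3 := frow r x hr.1 hr.2
                rw [e] at h3; omega
            · intro x _ x' _ he
              exact finj _ _ _ le_rfl (by positivity) he
          · rw [card_eq_zero.2]
            · norm_num
            · rw [filter_eq_empty_iff]
              intro x _ hx
              rw [hmem] at hx
              rcases hx with e | e | ⟨r, hr, e⟩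
              · have := hr1 x; rw [← e] at this; omega
              · have := hr2 x; rw [← e] at this; omega
              · have h3 := frow r x hr.1 hr.2
                rw [e] at h3; omega
    · rw [card_eq_zero.2]
      · norm_num
      · rw [filter_eq_empty_iff]
        intro x _ hx
        unfold colX at hx
        rw [mem_insert, mem_insert, mem_image] at hx
        rcases hx with e | e | ⟨r, _, e⟩
        · exact absurd e (by simp)
        · exact absurd e (by simp)
        · exact absurd e (by simp)
  have hsub : (univ.filter fun x => ¬ Disjoint R (colX I h f (w₁ x) (w₂ x) x)) ⊆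
      R.biUnion fun a => univ.filter fun x => a ∈ colX I h f (w₁ x) (w₂ x) x := by
    intro x hx
    rw [mem_filter, not_disjoint_iff] at hx
    obtain ⟨a, ha, ha'⟩ := hx.2
    rw [mem_biUnion]
    exact ⟨a, ha, mem_filter.2 ⟨mem_univ _, ha'⟩⟩
  calc _ ≤ _ := card_le_card hsub
    _ ≤ ∑ a ∈ R, (univ.filter fun x => a ∈ colX I h f (w₁ x) (w₂ x) x).card := card_biUnion_le
    _ ≤ ∑ a ∈ R, 3 := sum_le_sum fun a _ => key a
    _ = 3 * R.card := by rw [sum_const, smul_eq_mul, mul_comm]

end Pool.Agent.Helper59.UB
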